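import Pool.Agent.Q199.SY.Stm

/-! Assembly of project SY. -/

open MeasureTheory ProbabilityTheory Set
open scoped ENNReal

namespace Pool.Agent.Q199.SY

variable {ν : (ℕ → ℝ) → ℝ}

lemma wt_cons (x : ℕ) (w : List ℕ) : wt (x :: w) = (x + 1) * wt w := by simp [wt]

lemma wt_append (u v : List ℕ) : wt (u ++ v) = wt u * wt v := by simp [wt]

lemma wt_pos : ∀ w : List ℕ, 1 ≤ wt w
  | [] => by simp [wt]
  | x :: w => by
      rw [wt_cons]
      exact Nat.mul_pos (Nat.succ_pos x) (wt_pos w)

lemma wt_gt : ∀ (w : List ℕ) (n : ℕ), (∃ x ∈ w, n < x) → n < wt w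
  | [], n, h => by simp at h
  | x :: w, n, h => by
      rw [wt_cons]
      have hw := wt_pos w
      rcases h with ⟨y, hy, hny⟩
      rcases List.mem_cons.1 hy with rfl | hy
      · nlinarith
      · have := wt_gt w n ⟨y, hy, hny⟩
        nlinarith

lemma infinite_of_gt (g : ℕ → ℕ) (h : ∀ n, n < g n) : (Set.range g).Infinite := by
  intro hf
  obtain ⟨N, hN⟩ := hf.bddAbove
  have := hN ⟨N, rfl⟩
  have := h N
  omega

theorem fin_of (h1 : S_mean) (h2 : S_gam) (h3 : S_star) : S_fin := by
  intro S ⟨L, hL⟩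
  obtain ⟨ν, hν, hs, hd⟩ := h1
  obtain ⟨γ, hγ, hg⟩ := h2 ν hν hd S L hL (L + 2)
  set f : List ℕ → ℝ := fun w => S.indicator (fun _ => (1 : ℝ)) (γ * wt w) with hf
  have hf01 : ∀ w, f w = 0 ∨ f w = 1 := by
    intro w
    by_cases h : γ * wt w ∈ S
    · right; simp [hf, h]
    · left; simp [hf, h]
  have hfs : ∀ u v, f (u ++ v) = f (v ++ u) := by
    intro u v
    simp only [hf, wt_append]
    rw [mul_comm (wt u)]
  have hpos : 0 < it ν (L + 2) f := by
    by_contra hn
    push Not at hn
    have h0 : (0 : ℝ) < (L : ℝ) + 1 := by positivity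
    nlinarith
  obtain ⟨k, hk, hkl, u, v, hu, hv, huv, hnu, hnv⟩ := h3 ν hν hs f hf01 hfs (L + 2) (by
    push_cast
    nlinarith)
  refine ⟨Set.range (fun n => γ * wt (u n)), Set.range (fun n => wt (v n)), ?_, ?_, ?_, ?_, ?_⟩
  · exact infinite_of_gt _ (fun n => by
      have := wt_gt (u n) n (hnu n)
      nlinarith)
  · exact infinite_of_gt _ (fun n => wt_gt (v n) n (hnv n))
  · rintro a ⟨n, rfl⟩
    exact Nat.mul_pos hγ (wt_pos _)
  · rintro b ⟨n, rfl⟩
    exact wt_pos _
  · rintro a ⟨i, rfl⟩ b ⟨j, rfl⟩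
    have h := huv i j
    simp only [hf, wt_append] at h
    by_contra hn
    have : γ * (wt (u i) * wt (v j)) ∉ S := by rwa [← mul_assoc]
    simp [this] at h

theorem star_of (hlaw : S_law) (hzer : S_zer) (hmap : S_map) (hmkv : S_mkv) (hprd : S_prd)
    (hrb : S_rb) (hsupp : S_supp) (hgr : S_gr) (huch : S_uch) : S_star := by
  intro ν hν hs f hf01 hfs ℓ hl
  have hf : ∀ w, 0 ≤ f w ∧ f w ≤ 1 := by
    intro w
    rcases hf01 w with h | h <;> rw [h] <;> norm_num
  obtain ⟨m, hm⟩ := hlaw ν hν f hf
  have hp : ∀ k, IsProbabilityMeasure (m k) := hm.prob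
  have hl1 : 1 ≤ ℓ := by
    rcases Nat.eq_zero_or_pos ℓ with rfl | h
    · norm_num at hl
    · exact h
  obtain ⟨hpre, hsuf, hm0⟩ := hmap ν hν f m hm
  have hRH : RH m preK sufK (ty ν f []) :=
    ⟨hp, continuous_preK.measurable, continuous_sufK.measurable, hm0, hpre, hsuf,
      hmkv ν hν f m hf hm⟩
  set E : Set K := {z | (z .base : ℝ) = 1} with hE
  have hEc : IsClosed E := isClosed_eq (by fun_prop) continuous_const
  have hEm : MeasurableSet E := hEc.measurableSet
  set D : ℕ → K → K × K := fun k z => (preK^[ℓ - k] z, sufK^[k] z) with hD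
  have hDm : ∀ k, Measurable (D k) := fun k =>
    (hRH.mpre.iterate _).prodMk (hRH.msuf.iterate _)
  have hsup : ∀ k, ∃ T : Set (K × K), MeasurableSet T ∧
      (((m ℓ).restrict E).map (D k)) Tᶜ = 0 ∧ ∀ Q, MeasurableSet Q → Q ⊆ T →
        (((m ℓ).restrict E).map (D k)) Q = 0 → ((m ℓ).map (D k)) Q = 0 := by
    intro k
    have : IsProbabilityMeasure ((m ℓ).map (D k)) :=
      Measure.isProbabilityMeasure_map (hDm k).aemeasurable
    exact hsupp (K × K) _ _ (Measure.map_mono Measure.restrict_le_self (hDm k))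
  choose T hTm hTc hT using hsup
  -- measure of E
  have hmE : it ν ℓ f = (m ℓ).real E := by
    have h1 := hm.int ℓ ⟨fun z => (z .base : ℝ), by fun_prop⟩
    have h2 : it ν ℓ (fun w => ((ty ν f w .base : unitInterval) : ℝ)) = it ν ℓ f := by
      congr 1
      funext w
      exact ty_val hν hf _ _
    simp only [ContinuousMap.coe_mk] at h1
    rw [h2] at h1
    rw [← h1]
    have h3 : ∀ᵐ z ∂(m ℓ), (z .base : ℝ) * (1 - (z .base : ℝ)) = 0 := by
      refine hzer ν hν f m hm ℓ (fun z => (z .base : ℝ) * (1 - (z .base : ℝ))) (by fun_prop)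
        (fun z => mul_nonneg (z .base).2.1 (by linarith [(z .base).2.2])) ?_
      intro w _
      have : (ty ν f w .base : ℝ) = f w := ty_val hν hf _ _
      simp only [this]
      rcases hf01 w with h | h <;> rw [h] <;> norm_num
    have h4 : (fun z : K => (z .base : ℝ)) =ᵐ[m ℓ] E.indicator (fun _ => (1 : ℝ)) := by
      filter_upwards [h3] with z hz
      rcases mul_eq_zero.1 hz with h | h
      · have : z ∉ E := by
          simp only [hE, Set.mem_ofPred_eq, h]; norm_num
        simp [this, h]
      · have h' : (z .base : ℝ) = 1 := by linarith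
        have : z ∈ E := h'
        simp [this, h']
    rw [integral_congr_ae h4, integral_indicator hEm]
    simp [Measure.real]
  by_contra hno
  have key : ∀ k, 1 ≤ k → k < ℓ → m ℓ {z | (preK^[ℓ - k] z, sufK^[k] z) ∈ T k ∧
      (sufK^[k] z, preK^[ℓ - k] z) ∈ T (ℓ - k)} = 0 := by
    intro k hk1 hkl
    by_contra hne
    apply hno
    refine ⟨k, hk1, hkl, ?_⟩
    set W : Set (K × K) := T k ∩ Prod.swap ⁻¹' (T (ℓ - k)) with hW
    have hWm : MeasurableSet W := (hTm k).inter (measurable_swap (hTm (ℓ - k)))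
    have hprod : (m ℓ).map (D k) = (m k).prod (m (ℓ - k)) := by
      have := hprd ν hν f m hf hm k (ℓ - k)
      have e : k + (ℓ - k) = ℓ := by omega
      rw [e] at this
      exact this
    have hprod' : (m ℓ).map (D (ℓ - k)) = (m (ℓ - k)).prod (m k) := by
      have := hprd ν hν f m hf hm (ℓ - k) k
      have e : (ℓ - k) + k = ℓ := by omega
      rw [e] at this
      have e2 : ℓ - (ℓ - k) = k := by omega
      simp only [hD, e2]
      exact this
    have hswap : ((m ℓ).map (D (ℓ - k))).map Prod.swap = (m k).prod (m (ℓ - k)) := by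
      rw [hprod', Measure.prod_swap]
    set lam : Measure (K × K) := ((m ℓ).restrict E).map (D k) with hlam
    set lam' : Measure (K × K) := (((m ℓ).restrict E).map (D (ℓ - k))).map Prod.swap with hlam'
    have hlam_le : lam ≤ (m k).prod (m (ℓ - k)) := by
      rw [← hprod]
      exact Measure.map_mono Measure.restrict_le_self (hDm k)
    have hlam'_le : lam' ≤ (m k).prod (m (ℓ - k)) := by
      rw [← hswap]
      exact Measure.map_mono (Measure.map_mono Measure.restrict_le_self (hDm _)) measurable_swap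
    have hQ : ∀ Q, MeasurableSet Q → Q ⊆ W → (m k).prod (m (ℓ - k)) Q ≠ 0 →
        lam Q ≠ 0 ∧ lam' Q ≠ 0 := by
      intro Q hQm hQW hQ0
      constructor
      · intro h0
        apply hQ0
        rw [← hprod]
        exact hT k Q hQm (hQW.trans Set.inter_subset_left) h0
      · intro h0
        apply hQ0
        rw [← hswap, Measure.map_apply measurable_swap hQm]
        refine hT (ℓ - k) (Prod.swap ⁻¹' Q) (measurable_swap hQm) ?_ ?_
        · intro p hp
          have := (hQW hp).2
          simpa using this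
        · rw [hlam', Measure.map_apply measurable_swap hQm] at h0
          exact h0
    have hW0 : (m k).prod (m (ℓ - k)) W ≠ 0 := by
      rw [← hprod, Measure.map_apply (hDm k) hWm]
      exact hne
    have hcs : ∀ (t : Tm), MeasurableSet {s : K | (s t : ℝ) = 1} := fun t =>
      (isClosed_eq (by fun_prop) continuous_const : IsClosed {s : K | (s t : ℝ) = 1}).measurableSet
    obtain ⟨u, v, h1, h2, h3⟩ := hgr K {u : List ℕ // u.length = k}
      {v : List ℕ // v.length = ℓ - k} (m k) (m (ℓ - k))
      (fun v => {s | (s (secs v.1 .base) : ℝ) = 1}) (fun u => {t | (t (secs u.1 .base) : ℝ) = 1})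
      (fun u v => f (u.1 ++ v.1) = 1) (fun u n => ∃ x ∈ u.1, n < x) (fun v n => ∃ x ∈ v.1, n < x)
      lam lam' W (fun v => hcs _) (fun u => hcs _) hWm hlam_le hlam'_le hQ hW0
      (by
        intro n vs B hB hne
        have hms : MeasurableSet ((⋂ v ∈ vs, {s : K | (s (secs v.1 .base) : ℝ) = 1}) ×ˢ B) := by
          refine MeasurableSet.prod ?_ hB
          exact MeasurableSet.biInter (Set.to_countable {v | v ∈ vs}) (fun v _ => hcs _)
        rw [hlam, Measure.map_apply (hDm k) hms, Measure.restrict_apply (hDm k hms)] at hne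
        obtain ⟨u, hu1, hu2, hu3, hu4⟩ := huch ν hν hs f m hf01 hm k (ℓ - k) hk1
          (vs.map Subtype.val) B hB (by
            have e : k + (ℓ - k) = ℓ := by omega
            rw [e]
            refine fun h0 => hne (measure_mono_null ?_ h0)
            rintro z ⟨hz1, hz2⟩
            refine ⟨hz2, ?_, hz1.2⟩
            intro v hv
            obtain ⟨v', hv', rfl⟩ := List.mem_map.1 hv
            have := hz1.1
            simp only [Set.mem_iInter] at this
            exact this v' hv') n
        refine ⟨⟨u, hu1⟩, hu2, ?_, hu4⟩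
        intro v hv
        rw [hfs]
        exact hu3 v.1 (List.mem_map_of_mem hv))
      (by
        intro n us A hA hne
        have hms : MeasurableSet (A ×ˢ (⋂ u ∈ us, {s : K | (s (secs u.1 .base) : ℝ) = 1})) := by
          refine MeasurableSet.prod hA ?_
          exact MeasurableSet.biInter (Set.to_countable {v | v ∈ us}) (fun v _ => hcs _)
        rw [hlam', Measure.map_apply measurable_swap hms,
          Measure.map_apply (hDm _) (measurable_swap hms),
          Measure.restrict_apply (hDm _ (measurable_swap hms))] at hne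
        have e2 : ℓ - (ℓ - k) = k := by omega
        obtain ⟨v, hu1, hu2, hu3, hu4⟩ := huch ν hν hs f m hf01 hm (ℓ - k) k (by omega)
          (us.map Subtype.val) A hA (by
            have e : (ℓ - k) + k = ℓ := by omega
            rw [e]
            refine fun h0 => hne (measure_mono_null ?_ h0)
            rintro z ⟨hz1, hz2⟩
            simp only [hD, Set.mem_preimage, Set.mem_prod, Prod.swap, e2] at hz1
            refine ⟨hz2, ?_, hz1.1⟩
            intro v hv
            obtain ⟨v', hv', rfl⟩ := List.mem_map.1 hv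
            have := hz1.2
            simp only [Set.mem_iInter] at this
            exact this v' hv') n
        refine ⟨⟨v, hu1⟩, hu2, ?_, hu4⟩
        intro u hu
        exact hu3 u.1 (List.mem_map_of_mem hu))
    exact ⟨fun n => (u n).1, fun n => (v n).1, fun n => (u n).2, fun n => (v n).2, h1, h2, h3⟩
  have hfin := hrb K m preK sufK _ hRH ℓ hl1 E T hEm hTm (by
      intro k _ _
      have h := hTc k
      rw [Measure.map_apply (hDm k) (hTm k).compl,
        Measure.restrict_apply (hDm k (hTm k).compl)] at h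
      refine measure_mono_null ?_ h
      rintro z ⟨hz1, hz2⟩
      exact ⟨hz2, hz1⟩) key
  have h5 : (ℓ : ℝ) * it ν ℓ f ≤ 1 := by
    rw [hmE]
    have := ENNReal.toReal_mono ENNReal.one_ne_top hfin
    rw [ENNReal.toReal_mul] at this
    simpa [Measure.real] using this
  linarith

lemma Yr_per {X : Type} (Φ : ℕ → X × X → unitInterval → X) (o : X) (ℓ : ℕ) :
    ∀ k i, Yr Φ o ℓ k (i + ℓ) = Yr Φ o ℓ k i
  | 0, i => rfl
  | k + 1, i => by
      funext ω
      have h1 := Yr_per Φ o ℓ k i
      have h2 := Yr_per Φ o ℓ k (i + 1)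
      have h3 : i + ℓ + 1 = i + 1 + ℓ := by ring
      simp only [Yr, h1, h3, h2, Nat.add_mod_right]

lemma Yr_meas {X : Type} [MeasurableSpace X] {Φ : ℕ → X × X → unitInterval → X}
    (hΦ : ∀ k, Measurable (Function.uncurry (Φ k))) (o : X) (ℓ : ℕ) :
    ∀ k i, Measurable (Yr Φ o ℓ k i)
  | 0, i => measurable_const
  | k + 1, i => by
      have h1 := Yr_meas hΦ o ℓ k i
      have h2 := Yr_meas hΦ o ℓ k (i + 1)
      exact (hΦ k).comp ((h1.prodMk h2).prodMk (measurable_pi_apply (i % ℓ, k)))

theorem ring_of (hdis : S_dis) (htri : S_tri) (hpair : S_pair) : S_ring := by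
  intro X _ _ _ m pre suf o h ℓ hl
  have hp : ∀ k, IsProbabilityMeasure (m k) := h.prob
  have hDm : Measurable (fun z => (pre z, suf z)) := h.mpre.prodMk h.msuf
  choose Φ hΦ1 hΦ2 using fun k => hdis X (X × X) (m (k + 1)) (fun z => (pre z, suf z)) hDm
  have hD : Dis m pre suf Φ := ⟨hΦ1, hΦ2⟩
  have hpair0 : PairLaw m pre suf Φ o ℓ 0 := by
    intro i
    have e1 : (fun ω => (Yr Φ o ℓ 0 i ω, Yr Φ o ℓ 0 (i + 1) ω)) = fun _ : Om => (o, o) := rfl
    rw [e1, Measure.map_const, measure_univ, one_smul]
    have h1 : ∀ᵐ z ∂(m 1), pre z = o := by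
      have : (m 1).map pre = Measure.dirac o := by rw [h.hpre 0, h.m0]
      have h2 : ∀ᵐ y ∂((m 1).map pre), y = o := by
        rw [this]
        exact (ae_dirac_iff (measurableSet_eq)).2 rfl
      exact ae_of_ae_map h.mpre.aemeasurable h2
    have h2 : ∀ᵐ z ∂(m 1), suf z = o := by
      have : (m 1).map suf = Measure.dirac o := by rw [h.hsuf 0, h.m0]
      have h2 : ∀ᵐ y ∂((m 1).map suf), y = o := by
        rw [this]
        exact (ae_dirac_iff (measurableSet_eq)).2 rfl
      exact ae_of_ae_map h.msuf.aemeasurable h2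
    have h3 : (fun z => (pre z, suf z)) =ᵐ[m 1] fun _ => (o, o) := by
      filter_upwards [h1, h2] with z hz1 hz2
      rw [hz1, hz2]
    rw [Measure.map_congr h3, Measure.map_const, measure_univ, one_smul]
  have hall : ∀ k, k < ℓ → TriLaw m pre suf Φ o ℓ k := by
    intro k
    induction k using Nat.strong_induction_on with
    | _ k ih =>
      intro hk
      refine htri X m pre suf o Φ h hD ℓ k hl ?_
      rcases k with _ | k
      · exact hpair0
      · exact hpair X m pre suf o Φ h hD ℓ k (by omega) (fun j hj => ih j (by omega) (by omega))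
  have hYm := Yr_meas hΦ1 o ℓ
  refine ⟨Yr Φ o ℓ, ?_, ?_, Yr_per Φ o ℓ⟩
  · intro k i hk
    refine ⟨hYm k i, ?_⟩
    rcases k with _ | k
    · have e1 : Yr Φ o ℓ 0 i = fun _ : Om => o := rfl
      rw [e1, Measure.map_const, measure_univ, one_smul, h.m0]
    · have h1 := hall k (by omega) i
      have h2 := congrArg (fun μ : Measure ((X × X) × X) => μ.map Prod.snd) h1
      rw [Measure.map_map measurable_snd
        (((hYm k i).prodMk (hYm k (i + 1))).prodMk (hYm (k + 1) i)),
        Measure.map_map measurable_snd (hDm.prodMk measurable_id')] at h2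
      have e2 : (Prod.snd ∘ fun z : X => ((pre z, suf z), z)) = id := rfl
      rw [e2, Measure.map_id] at h2
      exact h2
  · intro k i hk
    have h1 := hall k hk i
    have hms : MeasurableSet {p : (X × X) × X | pre p.2 = p.1.1 ∧ suf p.2 = p.1.2} :=
      (measurableSet_eq_fun (h.mpre.comp measurable_snd)
        (measurable_fst.comp measurable_fst)).inter
      (measurableSet_eq_fun (h.msuf.comp measurable_snd)
        (measurable_snd.comp measurable_fst))
    have h2 : ∀ᵐ p ∂((m (k + 1)).map (fun z => ((pre z, suf z), z))),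
        pre p.2 = p.1.1 ∧ suf p.2 = p.1.2 := by
      rw [ae_map_iff (hDm.prodMk measurable_id').aemeasurable hms]
      exact Filter.Eventually.of_forall (fun z => ⟨rfl, rfl⟩)
    rw [← h1] at h2
    exact ae_of_ae_map
      (((hYm k i).prodMk (hYm k (i + 1))).prodMk (hYm (k + 1) i)).aemeasurable h2

end Pool.Agent.Q199.SY
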