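import Mathlib

/-! Means on bounded functions of a natural number, iterated means on words, terms and types of
words (project SY, problem MP_2e62d5_co). -/

open MeasureTheory ProbabilityTheory Set
open scoped ENNReal

namespace Pool.Agent.Q199.SY

/-- bounded real function -/
def Bd {α : Type} (f : α → ℝ) : Prop := ∃ C : ℝ, ∀ x, |f x| ≤ C

/-- finitely additive mean on the bounded functions of a natural number (letters are natural
numbers; the letter x will stand for the factor x + 1) -/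
structure IsMean (ν : (ℕ → ℝ) → ℝ) : Prop where
  add : ∀ f g : ℕ → ℝ, Bd f → Bd g → ν (fun x => f x + g x) = ν f + ν g
  smul : ∀ (c : ℝ) (f : ℕ → ℝ), Bd f → ν (fun x => c * f x) = c * ν f
  one : ν (fun _ => 1) = 1
  mono : ∀ f g : ℕ → ℝ, Bd f → Bd g → (∀ x, f x ≤ g x) → ν f ≤ ν g

/-- the mean vanishes on finite sets -/
def Sm (ν : (ℕ → ℝ) → ℝ) : Prop := ∀ M : ℕ, ν (fun x => if x ≤ M then 1 else 0) = 0

/-- the iterated mean on words of length k; the first letter is the outermost one -/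
def it (ν : (ℕ → ℝ) → ℝ) : ℕ → (List ℕ → ℝ) → ℝ
  | 0, φ => φ []
  | k + 1, φ => ν (fun x => it ν k (fun w => φ (x :: w)))

variable {ν : (ℕ → ℝ) → ℝ}

lemma Bd.cons {φ : List ℕ → ℝ} (h : Bd φ) (x : ℕ) : Bd (fun w => φ (x :: w)) := by
  obtain ⟨C, hC⟩ := h
  exact ⟨C, fun w => hC _⟩

lemma Bd.add {α : Type} {f g : α → ℝ} (hf : Bd f) (hg : Bd g) : Bd (fun x => f x + g x) := by
  obtain ⟨C, hC⟩ := hf
  obtain ⟨D, hD⟩ := hg
  exact ⟨C + D, fun x => (abs_add_le _ _).trans (add_le_add (hC x) (hD x))⟩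

lemma Bd.smul {α : Type} {f : α → ℝ} (c : ℝ) (hf : Bd f) : Bd (fun x => c * f x) := by
  obtain ⟨C, hC⟩ := hf
  exact ⟨|c| * C, fun x => by rw [abs_mul]; exact mul_le_mul_of_nonneg_left (hC x) (abs_nonneg c)⟩

lemma Bd.mul {α : Type} {f g : α → ℝ} (hf : Bd f) (hg : Bd g) : Bd (fun x => f x * g x) := by
  obtain ⟨C, hC⟩ := hf
  obtain ⟨D, hD⟩ := hg
  refine ⟨C * D, fun x => ?_⟩
  rw [abs_mul]
  exact mul_le_mul (hC x) (hD x) (abs_nonneg _) ((abs_nonneg _).trans (hC x))

lemma Bd.sub {α : Type} {f g : α → ℝ} (hf : Bd f) (hg : Bd g) : Bd (fun x => f x - g x) := by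
  obtain ⟨C, hC⟩ := hf
  obtain ⟨D, hD⟩ := hg
  exact ⟨C + D, fun x => (abs_sub _ _).trans (add_le_add (hC x) (hD x))⟩

lemma Bd.const {α : Type} (c : ℝ) : Bd (fun _ : α => c) := ⟨|c|, fun _ => le_rfl⟩

lemma Bd.of01 {α : Type} {f : α → ℝ} (h : ∀ x, 0 ≤ f x ∧ f x ≤ 1) : Bd f :=
  ⟨1, fun x => abs_le.2 ⟨by linarith [(h x).1], (h x).2⟩⟩

lemma IsMean.const (h : IsMean ν) (c : ℝ) : ν (fun _ => c) = c := by
  have := h.smul c (fun _ => 1) (Bd.const 1)
  simpa [h.one] using this

lemma IsMean.abs_le (h : IsMean ν) {f : ℕ → ℝ} {C : ℝ} (hf : ∀ x, |f x| ≤ C) : |ν f| ≤ C := by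
  have hb : Bd f := ⟨C, hf⟩
  have h1 := h.mono f (fun _ => C) hb (Bd.const C) (fun x => (_root_.abs_le.1 (hf x)).2)
  have h2 := h.mono (fun _ => -C) f (Bd.const (-C)) hb (fun x => (_root_.abs_le.1 (hf x)).1)
  rw [h.const] at h1 h2
  exact _root_.abs_le.2 ⟨h2, h1⟩

lemma IsMean.mem01 (h : IsMean ν) {f : ℕ → ℝ} (hf : ∀ x, 0 ≤ f x ∧ f x ≤ 1) :
    0 ≤ ν f ∧ ν f ≤ 1 := by
  have hb : Bd f := Bd.of01 hf
  have h1 := h.mono f (fun _ => 1) hb (Bd.const 1) (fun x => (hf x).2)
  have h2 := h.mono (fun _ => 0) f (Bd.const 0) hb (fun x => (hf x).1)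
  rw [h.const] at h1 h2
  exact ⟨h2, h1⟩

lemma it_abs_le (h : IsMean ν) {C : ℝ} : ∀ (k : ℕ) {φ : List ℕ → ℝ}, (∀ w, |φ w| ≤ C) →
    |it ν k φ| ≤ C
  | 0, φ, hφ => hφ []
  | k + 1, φ, hφ => h.abs_le (fun x => it_abs_le h k (fun w => hφ (x :: w)))

lemma it_bd (h : IsMean ν) (k : ℕ) {φ : List ℕ → ℝ} (hφ : Bd φ) :
    Bd (fun x => it ν k (fun w => φ (x :: w))) := by
  obtain ⟨C, hC⟩ := hφ
  exact ⟨C, fun x => it_abs_le h k (fun w => hC _)⟩

lemma it_add (h : IsMean ν) : ∀ (k : ℕ) {φ ψ : List ℕ → ℝ}, Bd φ → Bd ψ →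
    it ν k (fun w => φ w + ψ w) = it ν k φ + it ν k ψ
  | 0, φ, ψ, _, _ => rfl
  | k + 1, φ, ψ, hφ, hψ => by
      have h1 : (fun x => it ν k (fun w => φ (x :: w) + ψ (x :: w)))
          = fun x => it ν k (fun w => φ (x :: w)) + it ν k (fun w => ψ (x :: w)) := by
        funext x
        exact it_add h k (hφ.cons x) (hψ.cons x)
      simp only [it, h1]
      exact h.add _ _ (it_bd h k hφ) (it_bd h k hψ)

lemma it_smul (h : IsMean ν) (c : ℝ) : ∀ (k : ℕ) {φ : List ℕ → ℝ}, Bd φ →
    it ν k (fun w => c * φ w) = c * it ν k φ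
  | 0, φ, _ => rfl
  | k + 1, φ, hφ => by
      have h1 : (fun x => it ν k (fun w => c * φ (x :: w)))
          = fun x => c * it ν k (fun w => φ (x :: w)) := by
        funext x
        exact it_smul h c k (hφ.cons x)
      simp only [it, h1]
      exact h.smul _ _ (it_bd h k hφ)

lemma it_const (h : IsMean ν) (c : ℝ) : ∀ (k : ℕ), it ν k (fun _ => c) = c
  | 0 => rfl
  | k + 1 => by
      simp only [it, it_const h c k]
      exact h.const c

lemma it_mono (h : IsMean ν) : ∀ (k : ℕ) {φ ψ : List ℕ → ℝ}, Bd φ → Bd ψ →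
    (∀ w, w.length = k → φ w ≤ ψ w) → it ν k φ ≤ it ν k ψ
  | 0, φ, ψ, _, _, hle => hle [] rfl
  | k + 1, φ, ψ, hφ, hψ, hle => by
      simp only [it]
      exact h.mono _ _ (it_bd h k hφ) (it_bd h k hψ)
        (fun x => it_mono h k (hφ.cons x) (hψ.cons x) (fun w hw => hle _ (by simp [hw])))

lemma it_congr : ∀ (k : ℕ) {φ ψ : List ℕ → ℝ},
    (∀ w, w.length = k → φ w = ψ w) → it ν k φ = it ν k ψ
  | 0, φ, ψ, hle => hle [] rfl
  | k + 1, φ, ψ, hle => by
      simp only [it]
      congr 1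
      funext x
      exact it_congr k (fun w hw => hle _ (by simp [hw]))

lemma it_split (j : ℕ) : ∀ (k : ℕ) (φ : List ℕ → ℝ),
    it ν (k + j) φ = it ν k (fun u => it ν j (fun v => φ (u ++ v)))
  | 0, φ => by simp [it]
  | k + 1, φ => by
      have : k + 1 + j = (k + j) + 1 := by ring
      rw [this]
      simp only [it]
      congr 1
      funext x
      exact it_split j k _

lemma it_last (k : ℕ) (φ : List ℕ → ℝ) :
    it ν (k + 1) φ = it ν k (fun u => ν (fun x => φ (u ++ [x]))) := by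
  rw [it_split 1 k φ]
  rfl

lemma it_sub (h : IsMean ν) (k : ℕ) {φ ψ : List ℕ → ℝ} (hφ : Bd φ) (hψ : Bd ψ) :
    it ν k (fun w => φ w - ψ w) = it ν k φ - it ν k ψ := by
  have h1 := it_add h k hφ (hψ.smul (-1))
  rw [it_smul h (-1) k hψ] at h1
  have h2 : (fun w => φ w - ψ w) = fun w => φ w + -1 * ψ w := by funext w; ring
  rw [h2, h1]; ring

/-! ### Terms and types -/

/-- names of the functions of a word which are recorded in its type -/
inductive Tm : Type
  | base : Tm
  | one : Tm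
  | mul : Tm → Tm → Tm
  | pre : Tm → Tm
  | suf : Tm → Tm
  | avg : Tm → Tm
  | sec : ℕ → Tm → Tm
deriving Countable

/-- value of a term at a word -/
noncomputable def ev (ν : (ℕ → ℝ) → ℝ) (f : List ℕ → ℝ) : Tm → List ℕ → ℝ
  | .base, w => f w
  | .one, _ => 1
  | .mul s t, w => ev ν f s w * ev ν f t w
  | .pre t, w => ev ν f t w.dropLast
  | .suf t, w => ev ν f t w.tail
  | .avg t, w => ν (fun x => ev ν f t (w ++ [x]))
  | .sec n t, w => ev ν f t (n :: w)

/-- the space of types -/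
abbrev K : Type := Tm → unitInterval

/-- type of a word -/
noncomputable def ty (ν : (ℕ → ℝ) → ℝ) (f : List ℕ → ℝ) (w : List ℕ) : K :=
  fun t => Set.projIcc 0 1 zero_le_one (ev ν f t w)

/-- type of the word without its last letter -/
def preK (z : K) : K := fun t => z (.pre t)

/-- type of the word without its first letter -/
def sufK (z : K) : K := fun t => z (.suf t)

/-- the term whose value at w is the value of t at u ++ w -/
def secs : List ℕ → Tm → Tm
  | [], t => t
  | n :: u, t => secs u (.sec n t)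

lemma ev_mem (h : IsMean ν) {f : List ℕ → ℝ} (hf : ∀ w, 0 ≤ f w ∧ f w ≤ 1) :
    ∀ (t : Tm) (w : List ℕ), 0 ≤ ev ν f t w ∧ ev ν f t w ≤ 1
  | .base, w => hf w
  | .one, w => ⟨zero_le_one, le_rfl⟩
  | .mul s t, w => by
      have h1 := ev_mem h hf s w
      have h2 := ev_mem h hf t w
      exact ⟨mul_nonneg h1.1 h2.1, mul_le_one₀ h1.2 h2.1 h2.2⟩
  | .pre t, w => ev_mem h hf t _
  | .suf t, w => ev_mem h hf t _
  | .avg t, w => h.mem01 (fun x => ev_mem h hf t _)
  | .sec n t, w => ev_mem h hf t _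

lemma ty_val (h : IsMean ν) {f : List ℕ → ℝ} (hf : ∀ w, 0 ≤ f w ∧ f w ≤ 1) (t : Tm)
    (w : List ℕ) : (ty ν f w t : ℝ) = ev ν f t w := by
  have := ev_mem h hf t w
  simp only [ty, Set.projIcc]
  rw [min_eq_right this.2, max_eq_right this.1]

lemma preK_ty (f : List ℕ → ℝ) (w : List ℕ) : preK (ty ν f w) = ty ν f w.dropLast := rfl

lemma sufK_ty (f : List ℕ → ℝ) (w : List ℕ) : sufK (ty ν f w) = ty ν f w.tail := rfl

lemma ev_secs (f : List ℕ → ℝ) : ∀ (u : List ℕ) (t : Tm) (w : List ℕ),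
    ev ν f (secs u t) w = ev ν f t (u ++ w)
  | [], t, w => rfl
  | n :: u, t, w => by
      rw [secs, ev_secs f u, ev]
      rfl

lemma continuous_preK : Continuous preK := continuous_pi fun t => continuous_apply _

lemma continuous_sufK : Continuous sufK := continuous_pi fun t => continuous_apply _

lemma preK_iter_ty (f : List ℕ → ℝ) (j : ℕ) (w : List ℕ) :
    preK^[j] (ty ν f w) = ty ν f (List.dropLast^[j] w) := by
  induction j generalizing w with
  | zero => rfl
  | succ j ih => rw [Function.iterate_succ_apply, preK_ty, ih, ← Function.iterate_succ_apply]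

lemma sufK_iter_ty (f : List ℕ → ℝ) (j : ℕ) (w : List ℕ) :
    sufK^[j] (ty ν f w) = ty ν f (List.tail^[j] w) := by
  induction j generalizing w with
  | zero => rfl
  | succ j ih => rw [Function.iterate_succ_apply, sufK_ty, ih, ← Function.iterate_succ_apply]

lemma dropLast_iter (u v : List ℕ) : List.dropLast^[v.length] (u ++ v) = u := by
  induction v using List.reverseRecOn with
  | nil => simp
  | append_singleton v x ih =>
      rw [List.length_append, List.length_singleton, Function.iterate_succ_apply,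
        ← List.append_assoc, List.dropLast_concat, ih]

lemma tail_iter (u v : List ℕ) : List.tail^[u.length] (u ++ v) = v := by
  induction u with
  | nil => rfl
  | cons x u ih => rw [List.length_cons, Function.iterate_succ_apply]; exact ih

example : BorelSpace K := inferInstance
example : StandardBorelSpace K := inferInstance
example : CompactSpace K := inferInstance
example : PolishSpace K := inferInstance
example : Countable Tm := inferInstance

/-- m k is the law of the type of a word of length k under the iterated mean -/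
structure Laws (ν : (ℕ → ℝ) → ℝ) (f : List ℕ → ℝ) (m : ℕ → Measure K) : Prop where
  prob : ∀ k, IsProbabilityMeasure (m k)
  int : ∀ (k : ℕ) (F : C(K, ℝ)), ∫ z, F z ∂(m k) = it ν k (fun w => F (ty ν f w))

end Pool.Agent.Q199.SY
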