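import Pool.Agent.Q199.SY.Stm

open MeasureTheory ProbabilityTheory Set
open scoped ENNReal

namespace Pool.Agent.Q199.SY

lemma cont_coord (t : Tm) : Continuous (fun z : K => (z t : ℝ)) := by fun_prop

lemma integrable_coord (μ : Measure K) [IsFiniteMeasure μ] (t : Tm) :
    Integrable (fun z : K => (z t : ℝ)) μ :=
  Integrable.of_bound (cont_coord t).aestronglyMeasurable 1
    (Filter.Eventually.of_forall (fun z => by
      rw [Real.norm_eq_abs, abs_le]
      exact ⟨by linarith [(z t).2.1], (z t).2.2⟩))

lemma fin_wd (μ : Measure K) [IsFiniteMeasure μ] (t : Tm) :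
    IsFiniteMeasure (μ.withDensity (fun z => ENNReal.ofReal (z t : ℝ))) :=
  isFiniteMeasure_withDensity_ofReal (integrable_coord μ t).2

lemma int_wd (μ : Measure K) [IsFiniteMeasure μ] (t : Tm) (F : K → ℝ) :
    ∫ z, F z ∂(μ.withDensity (fun z => ENNReal.ofReal (z t : ℝ)))
      = ∫ z, F z * (z t : ℝ) ∂μ := by
  rw [integral_withDensity_eq_integral_toReal_smul (by fun_prop)
    (Filter.Eventually.of_forall (fun z => ENNReal.ofReal_lt_top))]
  refine integral_congr_ae (Filter.Eventually.of_forall (fun z => ?_))
  simp only [smul_eq_mul]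
  rw [ENNReal.toReal_ofReal (z t).2.1, mul_comm]

theorem t_cav : S_cav := by
  intro ν hν f m hf hm k t C hC
  have hp := hm.prob
  have hpm : Measurable preK := continuous_preK.measurable
  have f1 := fin_wd (m (k + 1)) t
  have f2 := fin_wd (m k) (.avg t)
  have key : ((m (k + 1)).withDensity (fun z => ENNReal.ofReal (z t : ℝ))).map preK
      = (m k).withDensity (fun z => ENNReal.ofReal (z (.avg t) : ℝ)) := by
    refine ext_of_forall_integral_eq_of_IsFiniteMeasure ?_
    intro F
    rw [integral_map hpm.aemeasurable F.continuous.aestronglyMeasurable, int_wd, int_wd]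
    have h1 := hm.int (k + 1) ⟨fun z => F (preK z) * (z t : ℝ),
      (F.continuous.comp continuous_preK).mul (cont_coord t)⟩
    have h2 := hm.int k ⟨fun z => F z * (z (.avg t) : ℝ), F.continuous.mul (cont_coord _)⟩
    simp only [ContinuousMap.coe_mk] at h1 h2
    rw [h1, h2, it_last]
    refine it_congr k (fun w _ => ?_)
    simp only [preK_ty, List.dropLast_concat, ty_val hν hf]
    rw [hν.smul _ _ (Bd.of01 (fun x => ev_mem hν hf t _))]
    rfl
  have h3 := congrArg (fun μ : Measure K => (μ C).toReal) key
  rw [Measure.map_apply hpm hC, withDensity_apply _ (hpm hC), withDensity_apply _ hC] at h3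
  rw [integral_eq_lintegral_of_nonneg_ae
    (Filter.Eventually.of_forall (fun z => (z t).2.1)) (cont_coord t).aestronglyMeasurable,
    integral_eq_lintegral_of_nonneg_ae
    (Filter.Eventually.of_forall (fun z => (z (.avg t)).2.1))
    (cont_coord (.avg t)).aestronglyMeasurable]
  exact h3

end Pool.Agent.Q199.SY
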