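import Pool.Agent.Q199.SY.Stm

open MeasureTheory ProbabilityTheory Set
open scoped ENNReal

namespace Pool.Agent.Q199.SY

theorem t_supp : S_supp := by
  intro X _ μ lam _ hle
  have : IsFiniteMeasure lam := isFiniteMeasure_of_le μ hle
  have hac : lam ≪ μ := Measure.absolutelyContinuous_of_le hle
  have hm : Measurable (lam.rnDeriv μ) := Measure.measurable_rnDeriv lam μ
  have hd : μ.withDensity (lam.rnDeriv μ) = lam := Measure.withDensity_rnDeriv_eq lam μ hac
  refine ⟨{x | lam.rnDeriv μ x ≠ 0}, (hm (measurableSet_singleton 0)).compl, ?_, ?_⟩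
  · have hs : MeasurableSet {x | lam.rnDeriv μ x ≠ 0}ᶜ :=
      ((hm (measurableSet_singleton 0)).compl).compl
    have e : lam {x | lam.rnDeriv μ x ≠ 0}ᶜ
        = ∫⁻ a in {x | lam.rnDeriv μ x ≠ 0}ᶜ, lam.rnDeriv μ a ∂μ := by
      rw [← withDensity_apply _ hs, hd]
    rw [e, lintegral_eq_zero_iff hm]
    refine (ae_restrict_iff' hs).2 (Filter.Eventually.of_forall ?_)
    intro x hx
    simpa using hx
  · intro Q hQ hQT h0
    have e : lam Q = ∫⁻ a in Q, lam.rnDeriv μ a ∂μ := by
      rw [← withDensity_apply _ hQ, hd]
    rw [e, lintegral_eq_zero_iff hm] at h0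
    have h1 := (ae_restrict_iff' hQ).1 h0
    refine measure_mono_null ?_ h1
    intro x hx hn
    exact hQT hx (hn hx)

theorem t_zer : S_zer := by
  intro ν hν f m hm k F hF h0 hz
  have hp := hm.prob k
  have h1 := hm.int k ⟨F, hF⟩
  simp only [ContinuousMap.coe_mk] at h1
  have h2 : it ν k (fun w => F (ty ν f w)) = 0 := by
    rw [it_congr (ψ := fun _ => 0) k hz, it_const hν]
  rw [h2] at h1
  have hint : Integrable F (m k) := by
    obtain ⟨C, hC⟩ := (isCompact_range hF).isBounded.exists_norm_le
    exact Integrable.of_bound hF.aestronglyMeasurable C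
      (Filter.Eventually.of_forall (fun z => hC _ ⟨z, rfl⟩))
  exact (integral_eq_zero_iff_of_nonneg h0 hint).1 h1

theorem t_map : S_map := by
  intro ν hν f m hm
  have hp := hm.prob
  refine ⟨?_, ?_, ?_⟩
  · intro k
    have : IsProbabilityMeasure ((m (k + 1)).map preK) :=
      Measure.isProbabilityMeasure_map continuous_preK.measurable.aemeasurable
    refine ext_of_forall_integral_eq_of_IsFiniteMeasure ?_
    intro F
    rw [integral_map continuous_preK.measurable.aemeasurable
      F.continuous.aestronglyMeasurable]
    have h1 := hm.int (k + 1) ⟨fun z => F (preK z), F.continuous.comp continuous_preK⟩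
    have h2 := hm.int k F.toContinuousMap
    simp only [ContinuousMap.coe_mk] at h1
    rw [h1]
    refine Eq.trans ?_ h2.symm
    rw [it_last]
    refine it_congr k (fun w _ => ?_)
    simp only [preK_ty, List.dropLast_concat]
    exact hν.const _
  · intro k
    have : IsProbabilityMeasure ((m (k + 1)).map sufK) :=
      Measure.isProbabilityMeasure_map continuous_sufK.measurable.aemeasurable
    refine ext_of_forall_integral_eq_of_IsFiniteMeasure ?_
    intro F
    rw [integral_map continuous_sufK.measurable.aemeasurable
      F.continuous.aestronglyMeasurable]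
    have h1 := hm.int (k + 1) ⟨fun z => F (sufK z), F.continuous.comp continuous_sufK⟩
    have h2 := hm.int k F.toContinuousMap
    simp only [ContinuousMap.coe_mk] at h1
    rw [h1]
    refine Eq.trans ?_ h2.symm
    simp only [it, sufK_ty, List.tail_cons]
    exact hν.const _
  · refine ext_of_forall_integral_eq_of_IsFiniteMeasure ?_
    intro F
    have h2 := hm.int 0 F.toContinuousMap
    refine Eq.trans h2 ?_
    simp [it]

end Pool.Agent.Q199.SY
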