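import Pool.Agent.Q199.SY.Asm
import Pool.Agent.Q199.SY.Zer
import Pool.Agent.Q199.SY.Cav
import Pool.Agent.Q149.SY.Pair
import Pool.Agent.Q149.SY.Uch
import Pool.Agent.Q149.SY.Mkv
import Pool.Agent.Q212.SY.Gr
import Pool.Agent.Q212.SY.Dis
import Pool.Agent.Q256.SY.Mean
import Pool.Agent.Q256.SY.Mom
import Pool.Agent.Q31.SY.Rb
import Pool.Agent.Q151.SY.Gam
import Pool.Agent.Q151.SY.Prd
import Pool.Agent.Q151.SY.Ind
import Pool.Agent.Q151.SY.Tri
import Pool.Agent.Q151.SY.Law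

/-! Project SY, last step. -/

namespace Pool.Agent.Q199.SY

theorem t_ring : S_ring :=
  ring_of Q212.SY.t_dis (Q151.SY.t_tri Q151.SY.t_ind)
    (Q149.SY.t_pair Q151.SY.t_ind Q151.SY.t_psi)

theorem t_star : S_star :=
  star_of Q151.SY.t_law t_zer t_map
    (Q149.SY.t_mkv t_zer t_map Q256.SY.t_mom t_cav)
    (Q151.SY.t_prd t_zer t_map Q256.SY.t_mom) (Q31.SY.t_rb t_ring) t_supp Q212.SY.t_gr
    (Q149.SY.t_uch t_zer t_map)

theorem t_fin : S_fin := fin_of Q256.SY.t_mean Q151.SY.t_gam t_star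

end Pool.Agent.Q199.SY
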