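import Pool.Agent.Q199.SY.Bas

/-! Statements of project SY (MP_2e62d5_co: every syndetic set of positive integers contains a
product set A B with A, B infinite). Definitions and small lemmas are in Bas.lean. -/

open MeasureTheory ProbabilityTheory Set
open scoped ENNReal

namespace Pool.Agent.Q199.SY

/-- the number attached to a word: product of x + 1 over its letters x -/
def wt (w : List ℕ) : ℕ := (w.map (fun x => x + 1)).prod

/-! ### Means -/

/-- MEAN. There is a dilation invariant mean which vanishes on finite sets.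
Proof. Let A n φ be the average of φ (∏ j : Fin n, (j+2)^(e j)) over all e : Fin n → Fin n
(n ≥ 1), U a nonprincipal ultrafilter on ℕ (hyperfilter ℕ) and ν φ the limit of A n φ along U
(for bounded φ it exists, all values lie in [-C, C]; for other φ take any value, say
ν φ = limUnder). Linear, monotone, ν 1 = 1. Dilation: for m = 1 trivial; for m = j0 + 2 and
n > j0 replacing φ by φ (m · ) shifts the exponent e j0 by one, so the two averages agree except
for the exponents e j0 = 0 and e j0 = n - 1 (for each fixed choice of the other exponents):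
|A n (φ (m ·)) - A n φ| ≤ 2 C / n → 0. Finite sets: for the indicator g of {x ≤ M}: let
h be the indicator of {1 ≤ x ≤ M}; h ((M+1) x) = 0 for all x, so ν h = 0 by dilation invariance
(or directly), and A n of the indicator of {0} is 0 because all the products are positive. -/
def S_mean : Prop := ∃ ν : (ℕ → ℝ) → ℝ, IsMean ν ∧ Sm ν ∧
  ∀ m : ℕ, 1 ≤ m → ∀ φ : ℕ → ℝ, Bd φ → ν (fun x => φ (m * x)) = ν φ

/-- GAM. Proof. Put (P φ) M = ν (y ↦ φ (M + y)). For M ≥ 1, dilation invariance for the function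
g y = φ (M + y) gives ν (x ↦ φ (M * (x + 1))) = ν (x ↦ g (M x)) = ν g = (P φ) M. By induction on ℓ
(for all bounded φ and all γ ≥ 1): it ν ℓ (w ↦ φ (γ * wt w)) = (P^[ℓ] φ) γ  (first letter x:
γ * wt (x :: w) = (γ (x+1)) * wt w, so the inner iterated mean is (P^[ℓ] φ) (γ (x+1)) and its
ν-mean in x is P (P^[ℓ] φ) γ). P commutes with translations by s and is additive and monotone on
bounded functions, so for φ = indicator of S:
∑_{s ≤ L} (P^[ℓ] φ) (1 + s) = P^[ℓ] (n ↦ ∑_{s ≤ L} φ (n + s)) 1 ≥ P^[ℓ] 1 = 1, because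
∑_{s ≤ L} φ (n + s) ≥ 1 for all n ≥ 1 (only arguments ≥ 1 occur; or change φ at 0, or use n + 1).
So one of the L + 1 numbers (P^[ℓ] φ) (1 + s) is at least 1/(L+1); take γ = 1 + s. -/
def S_gam : Prop := ∀ ν : (ℕ → ℝ) → ℝ, IsMean ν →
  (∀ m : ℕ, 1 ≤ m → ∀ φ : ℕ → ℝ, Bd φ → ν (fun x => φ (m * x)) = ν φ) →
  ∀ (S : Set ℕ) (L : ℕ), (∀ n, 1 ≤ n → ∃ s ∈ S, n ≤ s ∧ s ≤ n + L) → ∀ ℓ : ℕ,
    ∃ γ : ℕ, 1 ≤ γ ∧
      1 ≤ ((L : ℝ) + 1) * it ν ℓ (fun w => S.indicator (fun _ => (1 : ℝ)) (γ * wt w))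

/-! ### Laws of types -/

/-- LAW. Proof. For fixed k the map F ↦ it ν k (w ↦ F (ty ν f w)) is a positive linear functional
on C(K, ℝ) (K compact), with value 1 at 1; Riesz (RealRMK.rieszMeasure,
RealRMK.integral_rieszMeasure; on a compact space every continuous function has compact support)
gives the measure. it_add, it_smul, it_mono, it_const are in Bas.lean. Choose m k. -/
def S_law : Prop := ∀ (ν : (ℕ → ℝ) → ℝ), IsMean ν → ∀ f : List ℕ → ℝ,
  (∀ w, 0 ≤ f w ∧ f w ≤ 1) → ∃ m : ℕ → Measure K, Laws ν f m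

/-- ZER. Proof. ∫ F = it ν k (F ∘ ty) = 0 by it_congr and it_const, and F ≥ 0 continuous bounded
(integrable), so F = 0 almost everywhere (integral_eq_zero_iff_of_nonneg). -/
def S_zer : Prop := ∀ (ν : (ℕ → ℝ) → ℝ), IsMean ν → ∀ (f : List ℕ → ℝ) (m : ℕ → Measure K),
  Laws ν f m → ∀ (k : ℕ) (F : K → ℝ), Continuous F → (∀ z, 0 ≤ F z) →
    (∀ w, w.length = k → F (ty ν f w) = 0) → ∀ᵐ z ∂(m k), F z = 0

/-- MAP. Proof. Finite measures on K which give the same integral to every continuous function are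
equal (ext_of_forall_integral_eq_of_IsFiniteMeasure). For continuous F:
∫ F d(map preK (m (k+1))) = ∫ F (preK z) d m (k+1) = it (k+1) (w ↦ F (ty (w.dropLast)))
= it k (u ↦ ν (x ↦ F (ty u))) = it k (u ↦ F (ty u)) by it_last, preK_ty, dropLast_concat and
IsMean.const. For sufK use the first letter instead: it (k+1) φ = ν (x ↦ it k (w ↦ φ (x :: w))) by
definition. m 0: it ν 0 φ = φ []. -/
def S_map : Prop := ∀ (ν : (ℕ → ℝ) → ℝ), IsMean ν → ∀ (f : List ℕ → ℝ) (m : ℕ → Measure K),
  Laws ν f m → (∀ k, (m (k + 1)).map preK = m k) ∧ (∀ k, (m (k + 1)).map sufK = m k) ∧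
    m 0 = Measure.dirac (ty ν f [])

/-- a point of K which respects products and the constant 1 -/
def Good (z : K) : Prop :=
  (z .one : ℝ) = 1 ∧ ∀ s t : Tm, (z (.mul s t) : ℝ) = (z s : ℝ) * (z t : ℝ)

/-- MOM. Proof. K × K is compact metrizable (Polish). Let A be the set of bounded continuous real
functions g on K × K such that g agrees P-almost everywhere and Q-almost everywhere with one and the
same finite linear combination of functions p ↦ p.1 s * p.2 t (s, t terms). Because P- and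
Q-almost all points have both coordinates Good, A is a subalgebra containing the constants, and it
contains the coordinates p ↦ p.1 s (take t = one), p ↦ p.2 t, so it separates points; and
∫ g dP = ∫ g dQ for g in A. Use ext_of_forall_mem_subalgebra_integral_eq_of_polish. (Or: A = the
subalgebra generated by the coordinates, induction over Algebra.adjoin.) -/
def S_mom : Prop := ∀ (P Q : Measure (K × K)) [IsProbabilityMeasure P] [IsProbabilityMeasure Q],
  (∀ᵐ p ∂P, Good p.1 ∧ Good p.2) → (∀ᵐ p ∂Q, Good p.1 ∧ Good p.2) →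
  (∀ s t : Tm, ∫ p, (p.1 s : ℝ) * (p.2 t : ℝ) ∂P = ∫ p, (p.1 s : ℝ) * (p.2 t : ℝ) ∂Q) → P = Q

/-- Markov property of a sequence of laws: for every measurable D there is a version g of the
conditional probability of D given pre under m (k+1), such that under m (k+2) the conditional
probability of (suf in D) given pre = z is g (suf z) -/
def Mkv {X : Type} [MeasurableSpace X] (m : ℕ → Measure X) (pre suf : X → X) : Prop :=
  ∀ (k : ℕ) (D : Set X), MeasurableSet D → ∃ g : X → ℝ≥0∞, Measurable g ∧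
    (∀ C, MeasurableSet C → m (k + 1) (pre ⁻¹' C ∩ D) = ∫⁻ z in C, g z ∂(m k)) ∧
    (∀ C, MeasurableSet C →
      m (k + 2) (pre ⁻¹' C ∩ suf ⁻¹' D) = ∫⁻ z in C, g (suf z) ∂(m (k + 1)))

/-- CAV. Proof. Let μ1 C = ∫ z in preK⁻¹ C, z t d m (k+1) and μ2 C = ∫ z in C, z (avg t) d m k; both
are finite measures on K (densities with values in [0, 1]). For continuous χ : K → ℝ,
∫ χ (preK y) * y t d m (k+1) = it (k+1) (w ↦ χ (ty w.dropLast) * ev t w)
= it k (u ↦ χ (ty u) * ev (avg t) u) = ∫ χ(o) * o (avg t) d m k   (it_last, dropLast_concat,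
IsMean.smul, ty_val), so they agree (ext_of_forall_integral_eq_of_IsFiniteMeasure for the two
measures, the first one being the image under preK of (m (k+1)).withDensity (y ↦ y t)). -/
def S_cav : Prop := ∀ (ν : (ℕ → ℝ) → ℝ), IsMean ν → ∀ (f : List ℕ → ℝ) (m : ℕ → Measure K),
  (∀ w, 0 ≤ f w ∧ f w ≤ 1) → Laws ν f m → ∀ (k : ℕ) (t : Tm) (C : Set K), MeasurableSet C →
    ∫ z in preK ⁻¹' C, (z t : ℝ) ∂(m (k + 1)) = ∫ z in C, (z (.avg t) : ℝ) ∂(m k)

/-- MKV. Proof. You may assume S_zer, S_map, S_mom (they give: m k-almost every point is Good) and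
S_cav. Let τ be the regular conditional distribution of y given preK y under m (k+1) (condDistrib id preK,
K is standard Borel) and g o = τ o D: the first identity is its defining property. Let h t be the
coordinate y ↦ y t. (1) S_cav says ∫ y t τ(o, dy) = o (avg t) for m k-almost every o.
(2) Let Q be the law on K × K of (z, y), z ∼ m (k+1), y ∼ τ (sufK z), i.e.
(m (k+1)) ⊗ₘ (τ.comap sufK), and P = (m (k+2)).map (preK, sufK). Both have first and second
marginals m (k+1) (S_map; sufK z ∼ m k), so almost all points are Good. Moments: for Q,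
∫ z s * y t dQ = ∫ z s * (∫ y t τ(sufK z, dy)) d m (k+1) = ∫ z s * (sufK z) (avg t) d m (k+1)
= it (k+1) (w ↦ ev s w * ev (avg t) w.tail), and for P, ∫ (preK z) s * (sufK z) t d m (k+2)
= it (k+2) (w ↦ ev s w.dropLast * ev t w.tail) = it (k+1) (u ↦ ev s u * ν (x ↦ ev t (u ++ [x]).tail));
for u of length k+1 ≥ 1, (u ++ [x]).tail = u.tail ++ [x], so they are equal. By S_mom P = Q, which is
the second identity for all measurable C, D. -/
def S_mkv : Prop := ∀ (ν : (ℕ → ℝ) → ℝ), IsMean ν → ∀ (f : List ℕ → ℝ) (m : ℕ → Measure K),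
  (∀ w, 0 ≤ f w ∧ f w ≤ 1) → Laws ν f m → Mkv m preK sufK

/-- PRD. Proof. You may assume S_zer, S_map, S_mom. By S_map (iterated) the marginals of the left
side are m k and m j, so almost all points are Good on both sides. Moments:
∫ (preK^[j] z) s * (sufK^[k] z) t d m (k+j) = it (k+j) (w ↦ ev s (dropLast^[j] w) * ev t (tail^[k] w))
= it k (u ↦ it j (v ↦ ev s u * ev t v)) (it_split, it_congr, dropLast_iter, tail_iter)
= it k (ev s) * it j (ev t) = (∫ z s d m k) (∫ z t d m j) = the moment of the product measure. -/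
def S_prd : Prop := ∀ (ν : (ℕ → ℝ) → ℝ), IsMean ν → ∀ (f : List ℕ → ℝ) (m : ℕ → Measure K),
  (∀ w, 0 ≤ f w ∧ f w ≤ 1) → Laws ν f m → ∀ k j : ℕ,
    (m (k + j)).map (fun z => (preK^[j] z, sufK^[k] z)) = (m k).prod (m j)

/-! ### The ring coupling -/

/-- DIS. Proof. κ = condDistrib id D m (X standard Borel, nonempty), a Markov kernel from Y to X
with (m.map D) ⊗ₘ κ = m.map (x ↦ (D x, x)) (compProd_map_condDistrib), and
ProbabilityTheory.Kernel.exists_measurable_map_eq_unitInterval gives Φ with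
volume.map (Φ y) = κ y. Then for measurable rectangles / by Measure.compProd computations the image
of (m.map D) × volume under (y, u) ↦ (y, Φ y u) is (m.map D) ⊗ₘ κ. -/
def S_dis : Prop := ∀ (X Y : Type) [MeasurableSpace X] [StandardBorelSpace X] [Nonempty X]
  [MeasurableSpace Y] (m : Measure X) [IsProbabilityMeasure m] (D : X → Y), Measurable D →
    ∃ Φ : Y → unitInterval → X, Measurable (Function.uncurry Φ) ∧
      ((m.map D).prod (volume : Measure unitInterval)).map (fun p => (p.1, Φ p.1 p.2))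
        = m.map (fun x => (D x, x))

/-- noise space: independent uniform variables indexed by ℕ × ℕ -/
abbrev Om : Type := ℕ × ℕ → unitInterval

/-- the law of the noise -/
noncomputable def PP : Measure Om := Measure.infinitePi (fun _ => (volume : Measure unitInterval))

instance : IsProbabilityMeasure PP := by unfold PP; infer_instance

/-- IND. Proof. Coordinates under an infinite product are independent (iIndepFun_infinitePi);
independence of the families of coordinates in A and in B (e.g. iIndepFun.indepFun_finset is for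
finsets; for sets use indepFun_iff via indep_iSup_of_disjoint, the sigma-algebra generated by the
coordinates in A, resp. B); g factors through the restriction to A: g ω = g' (ω restricted to A)
with g' x = g (x continued by 0 outside A), measurable. -/
def S_ind : Prop := ∀ (A B : Set (ℕ × ℕ)), Disjoint A B → ∀ (α β : Type) [MeasurableSpace α]
  [MeasurableSpace β] (g : Om → α) (h : Om → β), Measurable g → Measurable h →
  (∀ ω ω' : Om, (∀ c ∈ A, ω c = ω' c) → g ω = g ω') →
  (∀ ω ω' : Om, (∀ c ∈ B, ω c = ω' c) → h ω = h ω') →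
  PP.map (fun ω => (g ω, h ω)) = (PP.map g).prod (PP.map h)

/-- the ring of arcs: Yr Φ o ℓ k i is the type of the arc of length k which starts at place i of a
ring of ℓ letters -/
def Yr {X : Type} (Φ : ℕ → X × X → unitInterval → X) (o : X) (ℓ : ℕ) : ℕ → ℕ → Om → X
  | 0, _, _ => o
  | k + 1, i, ω => Φ k (Yr Φ o ℓ k i ω, Yr Φ o ℓ k (i + 1) ω) (ω (i % ℓ, k))

/-- hypotheses on a sequence of laws -/
structure RH {X : Type} [MeasurableSpace X] (m : ℕ → Measure X) (pre suf : X → X) (o : X) :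
    Prop where
  prob : ∀ k, IsProbabilityMeasure (m k)
  mpre : Measurable pre
  msuf : Measurable suf
  m0 : m 0 = Measure.dirac o
  hpre : ∀ k, (m (k + 1)).map pre = m k
  hsuf : ∀ k, (m (k + 1)).map suf = m k
  mkv : Mkv m pre suf

/-- Φ k samples a point of law m (k+1) from its pair (pre, suf) and uniform noise -/
structure Dis {X : Type} [MeasurableSpace X] (m : ℕ → Measure X) (pre suf : X → X)
    (Φ : ℕ → X × X → unitInterval → X) : Prop where
  meas : ∀ k, Measurable (Function.uncurry (Φ k))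
  law : ∀ k, (((m (k + 1)).map (fun z => (pre z, suf z))).prod
      (volume : Measure unitInterval)).map (fun p => (p.1, Φ k p.1 p.2))
      = (m (k + 1)).map (fun z => ((pre z, suf z), z))

/-- law of two neighbouring arcs of length k -/
def PairLaw {X : Type} [MeasurableSpace X] (m : ℕ → Measure X) (pre suf : X → X)
    (Φ : ℕ → X × X → unitInterval → X) (o : X) (ℓ k : ℕ) : Prop :=
  ∀ i, PP.map (fun ω => (Yr Φ o ℓ k i ω, Yr Φ o ℓ k (i + 1) ω))
    = (m (k + 1)).map (fun z => (pre z, suf z))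

/-- law of two neighbouring arcs of length k and the arc of length k+1 which they form -/
def TriLaw {X : Type} [MeasurableSpace X] (m : ℕ → Measure X) (pre suf : X → X)
    (Φ : ℕ → X × X → unitInterval → X) (o : X) (ℓ k : ℕ) : Prop :=
  ∀ i, PP.map (fun ω => ((Yr Φ o ℓ k i ω, Yr Φ o ℓ k (i + 1) ω), Yr Φ o ℓ (k + 1) i ω))
    = (m (k + 1)).map (fun z => ((pre z, suf z), z))

/-- TRI. Proof. You may assume S_ind. Yr k i and Yr k (i+1) are measurable and depend only on the
noise coordinates (a, b) with b < k (induction on k), so the pair is independent of the coordinate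
(i % ℓ, k), whose law is volume. Hence the law of ((pair), Φ k pair noise) is the image of
(law of the pair) × volume, which by PairLaw and Dis.law is the right side. -/
def S_tri : Prop := ∀ (X : Type) [MeasurableSpace X] [StandardBorelSpace X] [Nonempty X]
  (m : ℕ → Measure X) (pre suf : X → X) (o : X) (Φ : ℕ → X × X → unitInterval → X),
  RH m pre suf o → Dis m pre suf Φ → ∀ ℓ k : ℕ, 1 ≤ ℓ → PairLaw m pre suf Φ o ℓ k →
    TriLaw m pre suf Φ o ℓ k

/-- continuation to the left: the arc of length k which starts at place i, as a function of the arc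
y of length k - 1 which starts at place i + 1 and of the noise v = (v 0, v 1, ...) attached to the
place i -/
def Psi {X : Type} (Φ : ℕ → X × X → unitInterval → X) (o : X) (pre : X → X) :
    ℕ → X → (ℕ → unitInterval) → X
  | 0, _, _ => o
  | k + 1, y, v => Φ k (Psi Φ o pre k (pre y) v, y) (v k)

/-- PSI. Proof. TriLaw j gives for j ≤ k and all i: almost surely pre (Yr (j+1) i) = Yr j i and
suf (Yr (j+1) i) = Yr j (i+1) (the set {((a, b), z) | a = pre z ∧ b = suf z} is measurable, X is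
standard Borel, and it has full measure under the right side of TriLaw; see the end of the proof of
ring_of in Asm.lean). Induction on j ≤ k: Yr (j+1) i ω = Psi (j+1) (Yr j (i+1) ω) (ω (i % ℓ, ·))
almost surely: for j = 0 by definition (Yr 0 i = o = Psi 0), and for j ≥ 1
Yr (j+1) i = Φ j (Yr j i, Yr j (i+1)) (ω (i % ℓ, j)) where Yr j i = Psi j (Yr (j-1) (i+1)) v (induction)
and Yr (j-1) (i+1) = pre (Yr j (i+1)) almost surely. -/
def S_psi : Prop := ∀ (X : Type) [MeasurableSpace X] [StandardBorelSpace X] [Nonempty X]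
  (m : ℕ → Measure X) (pre suf : X → X) (o : X) (Φ : ℕ → X × X → unitInterval → X),
  RH m pre suf o → Dis m pre suf Φ → ∀ ℓ k : ℕ, 1 ≤ ℓ →
    (∀ j, j ≤ k → TriLaw m pre suf Φ o ℓ j) → ∀ i, ∀ᵐ ω ∂PP,
      Yr Φ o ℓ (k + 1) i ω = Psi Φ o pre (k + 1) (Yr Φ o ℓ k (i + 1) ω) (fun b => ω (i % ℓ, b))

/-- PAIR. Proof. You may assume S_ind and S_psi. TriLaw j gives for j ≤ k and all i: Yr (j+1) i has
law m (j+1) (and Yr 0 i = o has law m 0), and almost surely pre (Yr (j+1) i) = Yr j i,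
suf (Yr (j+1) i) = Yr j (i+1). Write Ψ for Psi Φ o pre; by S_psi
Yr (k+1) i ω = Ψ (k+1) (Yr k (i+1) ω) (ω (i % ℓ, ·)) almost surely. The noise v = ω (i % ℓ, ·) is independent of Yr (k+1) (i+1) and of Yr k (i+1), which depend only on
coordinates (a, b) with a in {(i+1) % ℓ, ..., (i+k+1) % ℓ}; none of these is i % ℓ as k + 1 < ℓ.
Let N be the law of v. For measurable C, D let g be the function of RH.mkv for k and D, and
h y = N {v | Ψ (k+1) y v ∈ C}. Then
PP (Yr (k+1) i ∈ C, Yr (k+1) (i+1) ∈ D) = PP (Ψ (k+1) (pre (Yr (k+1) (i+1))) v ∈ C, Yr (k+1) (i+1) ∈ D)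
= ∫⁻ y in D, h (pre y) d m (k+1)              (independence)
= ∫⁻ y, h y * g y d m k                        (first identity of g, extended to h by monotone limits)
= ∫⁻ ω, 1[Ψ (k+1) (Yr k (i+1)) v ∈ C] * g (Yr k (i+1)) dPP          (independence)
= ∫⁻ ω, 1[Yr (k+1) i ∈ C] * g (suf (Yr (k+1) i)) dPP = ∫⁻ z in C, g (suf z) d m (k+1)
= m (k+2) (pre ⁻¹' C ∩ suf ⁻¹' D). Measures on X × X which agree on rectangles are equal. -/
def S_pair : Prop := ∀ (X : Type) [MeasurableSpace X] [StandardBorelSpace X] [Nonempty X]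
  (m : ℕ → Measure X) (pre suf : X → X) (o : X) (Φ : ℕ → X × X → unitInterval → X),
  RH m pre suf o → Dis m pre suf Φ → ∀ ℓ k : ℕ, k + 2 ≤ ℓ →
    (∀ j, j ≤ k → TriLaw m pre suf Φ o ℓ j) → PairLaw m pre suf Φ o ℓ (k + 1)

/-- RING: the ring coupling exists (assembled from DIS, TRI, PAIR) -/
def S_ring : Prop := ∀ (X : Type) [MeasurableSpace X] [StandardBorelSpace X] [Nonempty X]
  (m : ℕ → Measure X) (pre suf : X → X) (o : X), RH m pre suf o → ∀ ℓ : ℕ, 1 ≤ ℓ →
    ∃ Y : ℕ → ℕ → Om → X, (∀ k i, k ≤ ℓ → Measurable (Y k i) ∧ PP.map (Y k i) = m k) ∧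
      (∀ k i, k < ℓ → ∀ᵐ ω ∂PP, pre (Y (k + 1) i ω) = Y k i ω ∧ suf (Y (k + 1) i ω) = Y k (i + 1) ω) ∧
      (∀ k i, Y k (i + ℓ) = Y k i)

/-- RB. Proof. You may assume S_ring. Let E_r = {Y ℓ r ∈ E} for r < ℓ; PP E_r = m ℓ E. For
r < s < ℓ and k = s - r: almost surely pre^[ℓ-k] (Y ℓ r) = Y k r, suf^[k] (Y ℓ r) = Y (ℓ-k) s,
pre^[k] (Y ℓ s) = Y (ℓ-k) s, suf^[ℓ-k] (Y ℓ s) = Y k (s + (ℓ-k)) = Y k (r + ℓ) = Y k r. So by h1
for k and for ℓ - k (note ℓ - (ℓ-k) = k) almost surely on E_r ∩ E_s: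
(Y k r, Y (ℓ-k) s) ∈ T k and (Y (ℓ-k) s, Y k r) ∈ T (ℓ-k); the probability of this is the left side
of h2 for k (law of Y ℓ r is m ℓ), so PP (E_r ∩ E_s) = 0. The E_r are almost surely pairwise disjoint,
so ℓ * m ℓ E = ∑ PP E_r ≤ 1. -/
def S_rb : Prop := ∀ (X : Type) [MeasurableSpace X] [StandardBorelSpace X] [Nonempty X]
  (m : ℕ → Measure X) (pre suf : X → X) (o : X), RH m pre suf o → ∀ ℓ : ℕ, 1 ≤ ℓ →
    ∀ (E : Set X) (T : ℕ → Set (X × X)), MeasurableSet E → (∀ k, MeasurableSet (T k)) →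
    (∀ k, 1 ≤ k → k < ℓ → m ℓ {z | z ∈ E ∧ (pre^[ℓ - k] z, suf^[k] z) ∉ T k} = 0) →
    (∀ k, 1 ≤ k → k < ℓ → m ℓ {z | (pre^[ℓ - k] z, suf^[k] z) ∈ T k ∧
      (suf^[k] z, pre^[ℓ - k] z) ∈ T (ℓ - k)} = 0) →
    (ℓ : ℝ≥0∞) * m ℓ E ≤ 1

/-! ### The greedy construction -/

/-- SUPP. Proof. T = {x | 0 < lam.rnDeriv μ x}; lam = μ.withDensity (lam.rnDeriv μ) because
lam ≤ μ gives lam ≪ μ. -/
def S_supp : Prop := ∀ (X : Type) [MeasurableSpace X] (μ lam : Measure X) [IsFiniteMeasure μ],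
  lam ≤ μ → ∃ T : Set X, MeasurableSet T ∧ lam Tᶜ = 0 ∧
    ∀ Q, MeasurableSet Q → Q ⊆ T → lam Q = 0 → μ Q = 0

/-- GR. Proof. Build finite lists us, vs with F u v for all u ∈ us, v ∈ vs such that
W' = W ∩ (⋂ v ∈ vs, a v) ×ˢ (⋂ u ∈ us, b u) has positive P.prod R-measure. Adding a u: let
B = {t | P {s | (s, t) ∈ W'} ≠ 0} (measurable); then W' ∖ (univ ×ˢ B) is P.prod R-null, hence
lam-null, and lam W' ≠ 0, so lam ((⋂ v ∈ vs, a v) ×ˢ B) ≥ lam (W' ∩ univ ×ˢ B) = lam W' ≠ 0. The
choice hypothesis gives u with sU u n, F u v for all v ∈ vs and R (B ∩ b u) ≠ 0, and then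
P.prod R (W' ∩ univ ×ˢ b u) = ∫⁻ t in b u, P {s | (s, t) ∈ W'} dR ≠ 0. Adding a v is the same with
the two coordinates exchanged (lam'). Iterate: stage n adds u n, then v n. -/
def S_gr : Prop := ∀ (X : Type) [MeasurableSpace X] (U V : Type) (P R : Measure X)
  [IsProbabilityMeasure P] [IsProbabilityMeasure R] (a : V → Set X) (b : U → Set X)
  (F : U → V → Prop) (sU : U → ℕ → Prop) (sV : V → ℕ → Prop) (lam lam' : Measure (X × X))
  (W : Set (X × X)),
  (∀ v, MeasurableSet (a v)) → (∀ u, MeasurableSet (b u)) → MeasurableSet W →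
  lam ≤ P.prod R → lam' ≤ P.prod R →
  (∀ Q, MeasurableSet Q → Q ⊆ W → P.prod R Q ≠ 0 → lam Q ≠ 0 ∧ lam' Q ≠ 0) →
  P.prod R W ≠ 0 →
  (∀ (n : ℕ) (vs : List V) (B : Set X), MeasurableSet B →
    lam ((⋂ v ∈ vs, a v) ×ˢ B) ≠ 0 → ∃ u, sU u n ∧ (∀ v ∈ vs, F u v) ∧ R (B ∩ b u) ≠ 0) →
  (∀ (n : ℕ) (us : List U) (A : Set X), MeasurableSet A →
    lam' (A ×ˢ (⋂ u ∈ us, b u)) ≠ 0 → ∃ v, sV v n ∧ (∀ u ∈ us, F u v) ∧ P (A ∩ a v) ≠ 0) →
  ∃ (u : ℕ → U) (v : ℕ → V), (∀ i j, F (u i) (v j)) ∧ (∀ n, sU (u n) n) ∧ (∀ n, sV (v n) n)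

/-- UCH. Proof. You may assume S_zer, S_map. Suppose not: for every word u of length k with a letter
> n and f (v ++ u) = 1 for all v ∈ vs we have m j (B ∩ {t | t (secs u base) = 1}) = 0. Let
T u = ∏_{v ∈ vs} f (v ++ u) ∈ {0, 1}, the value at u of the product term of the terms secs v base
(ev_secs), and q the continuous function z ↦ z base * ∏_{v ∈ vs} (preK^[j] z) (secs v base) on K,
with values in [0, 1]. For continuous ψ : K → [0, 1]:
∫ q(z) ψ(sufK^[k] z) d m (k+j) = it k (u ↦ T u * it j (v ↦ f (u ++ v) ψ (ty v)))      (it_split)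
= it k (u ↦ T u * ∫ t (secs u base) ψ(t) d m j(t)). If u has a letter > n and T u = 1 then
t (secs u base) is 0 or 1 for almost all t (S_zer, as f is 0/1-valued) and is 0 almost surely on B, so
the integral is ≤ δ := ∫ |ψ - 1_B| d m j. If T u = 0 the term is 0. The words with all letters ≤ n
do not count: it k (indicator of {all letters ≤ n}) = 0 as k ≥ 1 and ν vanishes on finite sets (Sm;
bound by the first letter). So ∫ q ψ(sufK^[k]) ≤ δ, and since the law of sufK^[k] z under m (k+j)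
is m j (S_map), ∫ q 1_B(sufK^[k] z) d m (k+j) ≤ 2 δ. Choose continuous ψ with δ arbitrarily small
(density of continuous functions in L1): the integral is 0. But it is the measure of the set in the
hypothesis or larger: contradiction. -/
def S_uch : Prop := ∀ (ν : (ℕ → ℝ) → ℝ), IsMean ν → Sm ν → ∀ (f : List ℕ → ℝ)
  (m : ℕ → Measure K), (∀ w, f w = 0 ∨ f w = 1) → Laws ν f m → ∀ k j : ℕ, 1 ≤ k →
  ∀ (vs : List (List ℕ)) (B : Set K), MeasurableSet B →
    m (k + j) {z | (z .base : ℝ) = 1 ∧ (∀ v ∈ vs, ((preK^[j] z) (secs v .base) : ℝ) = 1) ∧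
      sufK^[k] z ∈ B} ≠ 0 →
    ∀ n : ℕ, ∃ u : List ℕ, u.length = k ∧ (∃ x ∈ u, n < x) ∧ (∀ v ∈ vs, f (v ++ u) = 1) ∧
      m j (B ∩ {t | (t (secs u .base) : ℝ) = 1}) ≠ 0

/-! ### Assembly -/

/-- STAR: the grid lemma -/
def S_star : Prop := ∀ (ν : (ℕ → ℝ) → ℝ), IsMean ν → Sm ν → ∀ f : List ℕ → ℝ,
  (∀ w, f w = 0 ∨ f w = 1) → (∀ u v, f (u ++ v) = f (v ++ u)) → ∀ ℓ : ℕ,
  1 < (ℓ : ℝ) * it ν ℓ f → ∃ k, 1 ≤ k ∧ k < ℓ ∧ ∃ u v : ℕ → List ℕ,
    (∀ n, (u n).length = k) ∧ (∀ n, (v n).length = ℓ - k) ∧ (∀ i j, f (u i ++ v j) = 1) ∧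
    (∀ n, ∃ x ∈ u n, n < x) ∧ (∀ n, ∃ x ∈ v n, n < x)

/-- FIN: the answer -/
def S_fin : Prop := ∀ S : Set ℕ, (∃ L : ℕ, ∀ n, 1 ≤ n → ∃ s ∈ S, n ≤ s ∧ s ≤ n + L) →
  ∃ A B : Set ℕ, A.Infinite ∧ B.Infinite ∧ (∀ a ∈ A, 1 ≤ a) ∧ (∀ b ∈ B, 1 ≤ b) ∧
    ∀ a ∈ A, ∀ b ∈ B, a * b ∈ S

end Pool.Agent.Q199.SY
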